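import Pool.Agent.Lib.MP_d86f80_ag.MainThree

/-!
# Weak approximation for smooth complete intersections of quadrics over function fields of
complex curves
-/

namespace Pool.Agent.Results.MP_d86f80_ag.SmoothQuadrics

open Matrix

/-- The value at `x` of the quadratic form with matrix `A`, over an extension `E` of `K`. -/
def qval {K E : Type} [Field K] [Field E] [Algebra K E] {N : ℕ} (A : Matrix (Fin N) (Fin N) K)
    (x : Fin N → E) : E :=
  ∑ a, ∑ b, algebraMap K E (A a b) * x a * x b

/-- The quadratic forms with the symmetric matrices `A i` define a smooth complete intersection of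
codimension `r` in projective space: at every nonzero common zero over an algebraic closure the
gradients `A i x` are linearly independent. -/
def IsSmoothCI {K : Type} [Field K] {r N : ℕ} (A : Fin r → Matrix (Fin N) (Fin N) K) : Prop :=
  ∀ x : Fin N → AlgebraicClosure K, x ≠ 0 → (∀ i, qval (A i) x = 0) →
    LinearIndependent (AlgebraicClosure K)
      (fun i => (A i).map (algebraMap K (AlgebraicClosure K)) *ᵥ x)

theorem qval_eq {K E : Type} [Field K] [Field E] [Algebra K E] {r N : ℕ}
    (A : Fin r → Matrix (Fin N) (Fin N) K) (x : Fin N → E) (i : Fin r) :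
    qval (A i) x = D86.bil A x x i := by
  rw [D86.bil_apply_apply]
  simp only [qval, Finset.sum_mul]
  refine Finset.sum_congr rfl fun a _ => Finset.sum_congr rfl fun b _ => ?_
  ring

theorem app_eq {K E : Type} [Field K] [Field E] [Algebra K E] {r N : ℕ}
    (A : Fin r → Matrix (Fin N) (Fin N) K) (l : Fin r → E) (x : Fin N → E) :
    D86.app E A l x = ∑ i, l i • ((A i).map (algebraMap K E) *ᵥ x) := rfl

/-- Weak approximation for smooth complete intersections of `r` quadrics in at least
`r ^ 2 - r + 3` variables, and of three quadrics in at least eight variables, over the function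
field of a complex curve. -/
theorem result (K : Type) [Field K] [Algebra (RatFunc ℂ) K] [FiniteDimensional (RatFunc ℂ) K]
    (r N : ℕ) (hN : r * r + 3 ≤ N + r ∨ (r = 3 ∧ 8 ≤ N))
    (A : Fin r → Matrix (Fin N) (Fin N) K) (hA : ∀ i, (A i).IsSymm) (hsm : IsSmoothCI A)
    (S : Type) [Finite S] (v : S → AbsoluteValue K ℝ) (hv : ∀ s, (v s).IsNontrivial)
    (hC : ∀ s (c : ℂ), v s (algebraMap (RatFunc ℂ) K (RatFunc.C c)) ≤ 1)
    (hne : Pairwise fun s t => ¬ (v s).IsEquiv (v t))
    (a : ∀ s, Fin N → (v s).Completion) (ha : ∀ s, a s ≠ 0) (hz : ∀ s i, qval (A i) (a s) = 0)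
    (ε : ℝ) (hε : 0 < ε) :
    ∃ x : Fin N → K, x ≠ 0 ∧ (∀ i, qval (A i) x = 0) ∧
      ∀ s j, ‖algebraMap K (v s).Completion (x j) - a s j‖ < ε := by
  have hrN : 2 * r < N := by
    rcases hN with hN | ⟨rfl, hN⟩
    · have hr1 : 3 * r ≤ r * r + 2 := by
        rcases Nat.lt_or_ge r 2 with h | h
        · interval_cases r <;> norm_num
        · obtain ⟨t, rfl⟩ := Nat.exists_eq_add_of_le h
          nlinarith
      omega
    · omega
  have hK : D86.QuadZero K := D86.quadZero_functionField (k := ℂ) K
  have hchar : CharZero K :=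
    charZero_of_injective_algebraMap (algebraMap (RatFunc ℂ) K).injective
  let _ : Algebra ℂ K := ((algebraMap (RatFunc ℂ) K).comp RatFunc.C).toAlgebra
  by_cases hS : Nonempty S
  swap
  · -- no place: Tsen-Lang
    obtain ⟨p, hp0, hp⟩ := hK.exists (V := Fin N → K) (κ := Fin r)
      (fun i => LinearMap.mk₂ K (fun x y => D86.bil A x y i)
        (by intro x y z; simp [D86.bil, mulVec_add, add_dotProduct])
        (by intro c x y; simp [D86.bil, mulVec_smul, smul_dotProduct])
        (by intro x y z; simp [D86.bil, dotProduct_add])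
        (by intro c x y; simp [D86.bil, dotProduct_smul])) (by
          rw [Fintype.card_fin, Module.finrank_fintype_fun_eq_card, Fintype.card_fin]
          exact hrN)
    refine ⟨p, hp0, fun i => ?_, fun s => absurd ⟨s⟩ hS⟩
    rw [qval_eq]
    exact hp i
  obtain ⟨s0⟩ := hS
  let _ : ∀ s, NontriviallyNormedField (v s).Completion := fun s => D86.nnf (v s) (hv s)
  have hd : D86.Unc K (fun s => (v s).Completion) := D86.unc_places hv hne hC
  have hns : D86.NS (AlgebraicClosure K) A := by
    intro l z hl hz0 happ hbil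
    have h1 := hsm z hz0 (fun i => by rw [qval_eq, hbil]; rfl)
    rw [Fintype.linearIndependent_iff] at h1
    exact hl (funext fun i => h1 l happ i)
  have hWA : D86.WA (fun s => (v s).Completion) A := by
    rcases hN with hN | ⟨rfl, hN⟩
    · exact D86.wa_smooth hK hd hA hns (by rw [Fintype.card_fin, Fintype.card_fin]; exact hN)
    · exact D86.wa_smooth_three hK hd hA hns (Fintype.card_fin 3)
        (by rw [Fintype.card_fin]; exact hN)
  have hlocz : ∀ s, D86.bil A (a s) (a s) = 0 := fun s => funext fun i => by
    rw [← qval_eq]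
    exact hz s i
  obtain ⟨x, hx0, hx⟩ := hWA a hlocz
    (fun s l hl => (hns.transfer (E' := (v s).Completion)).nonsing (ha s) (hlocz s) l hl)
    (fun s => {y | y ≠ 0} ∩ Metric.ball (a s) ε)
    (fun s => Filter.inter_mem (isOpen_ne.mem_nhds (ha s)) (Metric.ball_mem_nhds _ hε))
  refine ⟨x, ?_, fun i => ?_, fun s j => ?_⟩
  · rintro rfl
    exact (hx s0).1 (by funext j; simp [D86.up])
  · rw [qval_eq, hx0]
    rfl
  · have h1 := (hx s).2
    rw [Metric.mem_ball, dist_pi_lt_iff hε] at h1
    have h2 := h1 j
    rw [dist_eq_norm] at h2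
    exact h2

end Pool.Agent.Results.MP_d86f80_ag.SmoothQuadrics
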